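import Mathlib
import Pool.Agent.U188.MTQ.Com

/-!
# A form killed by the Lie algebra of the Tate classes is a Tate class
-/

set_option autoImplicit false
set_option linter.unusedSectionVars false

namespace Pool.Agent.U103.CF

open Module Filter Topology Pool.Agent.H204R3.SP Pool.Agent.U188.MTQ

section first

variable {K : Type} [NontriviallyNormedField K] {n : ℕ} {κ : Type} [Fintype κ] [DecidableEq κ]

/-- The first order term of a multilinear form. -/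
theorem first_lim (φ : MultilinearMap K (fun _ : κ => Fin n → K) K)
    (t : ℕ → K) (ht0 : ∀ k, t k ≠ 0) (ht : Tendsto t atTop (𝓝 0))
    (Y : ℕ → Matrix (Fin n) (Fin n) K) (Y₀ : Matrix (Fin n) (Fin n) K)
    (hY : Tendsto Y atTop (𝓝 Y₀)) (v : κ → Fin n → K) :
    Tendsto (fun k => (t k)⁻¹ * (φ (fun l => (1 + t k • Y k).mulVec (v l)) - φ v)) atTop
      (𝓝 (∑ j, φ (Function.update v j (Y₀.mulVec (v j))))) := by
  let F : ContinuousMultilinearMap K (fun _ : κ => Fin n → K) K :=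
    ⟨φ, multilinear_continuous φ⟩
  have hF : ∀ v, F v = φ v := fun v => rfl
  have hd : HasFDerivAt F (F.linearDeriv v) v := F.hasFDerivAt v
  let w : ℕ → κ → Fin n → K := fun k l => (Y k).mulVec (v l)
  let w₀ : κ → Fin n → K := fun l => Y₀.mulVec (v l)
  have hw : Tendsto w atTop (𝓝 w₀) := by
    rw [tendsto_pi_nhds]
    intro l
    have hc : Continuous fun A : Matrix (Fin n) (Fin n) K => A.mulVec (v l) :=
      continuous_id.matrix_mulVec continuous_const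
    exact (hc.tendsto _).comp hY
  have hlim : Tendsto (fun k => (t k)⁻¹ • (F (v + t k • w k) - F v)) atTop
      (𝓝 (F.linearDeriv v w₀)) := by
    have hd' : HasFDerivWithinAt F (F.linearDeriv v) Set.univ v := hd.hasFDerivWithinAt
    refine hd'.lim (d := fun k => t k • w k) ?_ (Eventually.of_forall fun _ => Set.mem_univ _) ?_
    · have h1 := ht.smul hw
      rwa [zero_smul] at h1
    · refine hw.congr fun k => ?_
      rw [smul_smul, inv_mul_cancel₀ (ht0 k), one_smul]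
  rw [ContinuousMultilinearMap.linearDeriv_apply] at hlim
  refine hlim.congr fun k => ?_
  have e1 : v + t k • w k = fun l => (1 + t k • Y k).mulVec (v l) := by
    funext l
    rw [Matrix.add_mulVec, Matrix.one_mulVec, Matrix.smul_mulVec]
    rfl
  rw [e1, hF, hF, smul_eq_mul]

end first

section abs

variable {ℓ : ℕ} [Fact ℓ.Prime] {X : Type} [AddCommGroup X] [Module ℚ_[ℓ] X]
  (N : X → ℝ) (hadd : ∀ x y, N (x + y) ≤ max (N x) (N y)) (hneg : ∀ x, N (-x) = N x)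
  (hsmul : ∀ (c : ℚ_[ℓ]) x, N (c • x) = ‖c‖ * N x) (hN0 : ∀ x, 0 ≤ N x)

include hadd hsmul hN0 in
theorem near_pow {U : Module.End ℚ_[ℓ] X} {r : ℝ} (hr0 : 0 ≤ r) (hr : r ≤ 1)
    (hU : ∀ x, N (U x - x) ≤ r * N x) (m : ℕ) (x : X) :
    N ((U ^ m) x - x) ≤ r * N x ∧ N ((U ^ m) x) ≤ N x := by
  have hle : ∀ x, N (U x) ≤ N x := by
    intro x
    have e : U x = (U x - x) + x := by abel
    rw [e]
    refine (hadd _ _).trans (max_le ((hU x).trans ?_) le_rfl)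
    exact mul_le_of_le_one_left (hN0 x) hr
  have h00 : N (0 : X) = 0 := by
    have h := hsmul 0 0
    rwa [zero_smul, norm_zero, zero_mul] at h
  induction m with
  | zero =>
    rw [pow_zero, Module.End.one_apply, sub_self, h00]
    exact ⟨mul_nonneg hr0 (hN0 x), le_rfl⟩
  | succ m ih =>
    rw [pow_succ', Module.End.mul_apply]
    refine ⟨?_, (hle _).trans ih.2⟩
    have e : U ((U ^ m) x) - x = (U ((U ^ m) x) - (U ^ m) x) + ((U ^ m) x - x) := by abel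
    rw [e]
    refine (hadd _ _).trans (max_le ((hU _).trans ?_) ih.1)
    exact mul_le_mul_of_nonneg_left ih.2 hr0

include hadd hneg hsmul hN0 in
theorem near_ell {V : Module.End ℚ_[ℓ] X} {r : ℝ} (hr0 : 0 ≤ r) (hr : r < (ℓ : ℝ)⁻¹)
    (hV : ∀ x, N (V x - x) ≤ r * N x) (x : X) :
    (ℓ : ℝ)⁻¹ * N (V x - x) ≤ N ((V ^ ℓ) x - x) := by
  have hl : (1 : ℝ) < ℓ := by exact_mod_cast (Fact.out : ℓ.Prime).one_lt
  have hl1 : (ℓ : ℝ)⁻¹ < 1 := inv_lt_one_of_one_lt₀ hl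
  have h00 : N (0 : X) = 0 := by
    have h := hsmul 0 0
    rwa [zero_smul, norm_zero, zero_mul] at h
  set y := V x - x with hy
  have hE : ∀ m : ℕ, N ((V ^ m) x - x - (m : ℚ_[ℓ]) • y) ≤ r * N y := by
    intro m
    induction m with
    | zero =>
      rw [pow_zero, Module.End.one_apply, sub_self, Nat.cast_zero, zero_smul, sub_zero, h00]
      exact mul_nonneg hr0 (hN0 y)
    | succ m ih =>
      have e1 : (V ^ (m + 1)) x = (V ^ m) y + (V ^ m) x := by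
        rw [pow_succ, Module.End.mul_apply, hy, map_sub]
        abel
      have e : (V ^ (m + 1)) x - x - ((m + 1 : ℕ) : ℚ_[ℓ]) • y =
          ((V ^ m) y - y) + ((V ^ m) x - x - (m : ℚ_[ℓ]) • y) := by
        rw [e1, Nat.cast_add, Nat.cast_one, add_smul, one_smul]
        abel
      rw [e]
      exact (hadd _ _).trans (max_le
        (near_pow N hadd hsmul hN0 hr0 (hr.le.trans hl1.le) hV m y).1 ih)
  have h1 : (ℓ : ℝ)⁻¹ * N y ≤ max (N ((V ^ ℓ) x - x)) (r * N y) := by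
    have e : (ℓ : ℚ_[ℓ]) • y = ((V ^ ℓ) x - x) + -((V ^ ℓ) x - x - (ℓ : ℚ_[ℓ]) • y) := by abel
    have h2 := hsmul (ℓ : ℚ_[ℓ]) y
    rw [Padic.norm_p, e] at h2
    rw [← h2]
    refine (hadd _ _).trans (max_le_max le_rfl ?_)
    rw [hneg]
    exact hE ℓ
  rcases le_max_iff.1 h1 with h | h
  · exact h
  · have h3 : N y = 0 := by
      by_contra hne
      have h4 : 0 < N y := lt_of_le_of_ne (hN0 y) (Ne.symm hne)
      have h5 := mul_lt_mul_of_pos_right hr h4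
      exact absurd h (not_le.2 h5)
    rw [h3, mul_zero]
    exact hN0 _

include hadd hneg hsmul hN0 in
theorem near_ell_pow {U : Module.End ℚ_[ℓ] X} {r : ℝ} (hr0 : 0 ≤ r) (hr : r < (ℓ : ℝ)⁻¹)
    (hU : ∀ x, N (U x - x) ≤ r * N x) (k : ℕ) (x : X) :
    ((ℓ : ℝ)⁻¹) ^ k * N (U x - x) ≤ N ((U ^ (ℓ ^ k)) x - x) := by
  have hl : (1 : ℝ) < ℓ := by exact_mod_cast (Fact.out : ℓ.Prime).one_lt
  have hl0 : (0 : ℝ) < (ℓ : ℝ)⁻¹ := by positivity
  have hl1 : (ℓ : ℝ)⁻¹ < 1 := inv_lt_one_of_one_lt₀ hl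
  induction k with
  | zero => simp
  | succ k ih =>
    have h1 := near_ell N hadd hneg hsmul hN0 hr0 hr (V := U ^ (ℓ ^ k))
      (fun y => (near_pow N hadd hsmul hN0 hr0 (hr.le.trans hl1.le) hU (ℓ ^ k) y).1) x
    rw [← pow_mul, ← pow_succ] at h1
    calc ((ℓ : ℝ)⁻¹) ^ (k + 1) * N (U x - x) = (ℓ : ℝ)⁻¹ * (((ℓ : ℝ)⁻¹) ^ k * N (U x - x)) := by
          ring
      _ ≤ (ℓ : ℝ)⁻¹ * N ((U ^ (ℓ ^ k)) x - x) := mul_le_mul_of_nonneg_left ih hl0.le
      _ ≤ _ := h1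

end abs

section forms

variable {ℓ : ℕ} [Fact ℓ.Prime] {n : ℕ} {κ : Type} [Fintype κ] [DecidableEq κ]

/-- the largest coefficient of a form -/
noncomputable def nf (φ : MultilinearMap ℚ_[ℓ] (fun _ : κ => Fin n → ℚ_[ℓ]) ℚ_[ℓ]) : ℝ :=
  ‖fun I : κ → Fin n => φ (fun l => Pi.single (I l) 1)‖

theorem nf_le {φ : MultilinearMap ℚ_[ℓ] (fun _ : κ => Fin n → ℚ_[ℓ]) ℚ_[ℓ]} {r : ℝ} (hr : 0 ≤ r) :
    nf φ ≤ r ↔ ∀ I : κ → Fin n, ‖φ (fun l => Pi.single (I l) 1)‖ ≤ r :=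
  pi_norm_le_iff_of_nonneg hr

theorem le_nf (φ : MultilinearMap ℚ_[ℓ] (fun _ : κ => Fin n → ℚ_[ℓ]) ℚ_[ℓ]) (I : κ → Fin n) :
    ‖φ (fun l => Pi.single (I l) 1)‖ ≤ nf φ :=
  norm_le_pi_norm (fun I : κ → Fin n => φ (fun l => Pi.single (I l) 1)) I

theorem nf_nonneg (φ : MultilinearMap ℚ_[ℓ] (fun _ : κ => Fin n → ℚ_[ℓ]) ℚ_[ℓ]) : 0 ≤ nf φ :=
  norm_nonneg _

theorem nf_add (φ ψ : MultilinearMap ℚ_[ℓ] (fun _ : κ => Fin n → ℚ_[ℓ]) ℚ_[ℓ]) :
    nf (φ + ψ) ≤ max (nf φ) (nf ψ) := by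
  rw [nf_le (le_max_of_le_left (nf_nonneg φ))]
  intro I
  rw [add_apply]
  exact (Padic.nonarchimedean _ _).trans (max_le_max (le_nf φ I) (le_nf ψ I))

theorem nf_neg (φ : MultilinearMap ℚ_[ℓ] (fun _ : κ => Fin n → ℚ_[ℓ]) ℚ_[ℓ]) :
    nf (-φ) = nf φ := by
  unfold nf
  rw [← norm_neg]
  congr 1
  funext I
  rw [Pi.neg_apply, neg_apply, neg_neg]

theorem nf_smul (c : ℚ_[ℓ]) (φ : MultilinearMap ℚ_[ℓ] (fun _ : κ => Fin n → ℚ_[ℓ]) ℚ_[ℓ]) :
    nf (c • φ) = ‖c‖ * nf φ := by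
  unfold nf
  rw [← norm_smul]
  rfl

theorem prod_sub {r : ℝ} (hr : 0 ≤ r) (s : Finset κ) (a b : κ → ℚ_[ℓ]) (ha : ∀ l, ‖a l‖ ≤ 1)
    (hb : ∀ l, ‖b l‖ ≤ 1) (hab : ∀ l, ‖a l - b l‖ ≤ r) :
    ‖∏ l ∈ s, a l - ∏ l ∈ s, b l‖ ≤ r := by
  classical
  induction s using Finset.induction_on with
  | empty => simpa using hr
  | insert i s hi ih =>
    rw [Finset.prod_insert hi, Finset.prod_insert hi]
    have e : a i * ∏ l ∈ s, a l - b i * ∏ l ∈ s, b l =
        a i * (∏ l ∈ s, a l - ∏ l ∈ s, b l) + (a i - b i) * ∏ l ∈ s, b l := by ring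
    rw [e]
    refine (Padic.nonarchimedean _ _).trans (max_le ?_ ?_)
    · rw [norm_mul]
      exact (mul_le_mul (ha i) ih (norm_nonneg _) zero_le_one).trans (one_mul r).le
    · rw [norm_mul]
      have h1 : ‖∏ l ∈ s, b l‖ ≤ 1 := by
        rw [norm_prod]
        exact Finset.prod_le_one (fun l _ => norm_nonneg _) fun l _ => hb l
      exact (mul_le_mul (hab i) h1 (norm_nonneg _) hr).trans (mul_one r).le

theorem form_expand (φ : MultilinearMap ℚ_[ℓ] (fun _ : κ => Fin n → ℚ_[ℓ]) ℚ_[ℓ])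
    (v : κ → Fin n → ℚ_[ℓ]) : φ v = ∑ r : κ → Fin n,
      (∏ l, v l (r l)) * φ (fun l => Pi.single (r l) 1) := by
  have h1 : v = fun l => ∑ j, v l j • (Pi.single j (1 : ℚ_[ℓ]) : Fin n → ℚ_[ℓ]) := by
    funext l
    exact pi_eq_sum_univ' (v l)
  conv_lhs => rw [h1]
  rw [MultilinearMap.map_sum]
  refine Finset.sum_congr rfl fun r _ => ?_
  rw [MultilinearMap.map_smul_univ, smul_eq_mul]

/-- the operator `φ ↦ c φ(T ·)` -/
noncomputable def op (c : ℚ_[ℓ]) (T : Matrix (Fin n) (Fin n) ℚ_[ℓ]) :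
    Module.End ℚ_[ℓ] (MultilinearMap ℚ_[ℓ] (fun _ : κ => Fin n → ℚ_[ℓ]) ℚ_[ℓ]) where
  toFun φ := c • φ.compLinearMap (fun _ => T.mulVecLin)
  map_add' φ ψ := by
    ext v
    simp [mul_add]
  map_smul' a φ := by
    ext v
    simp only [smul_apply, MultilinearMap.compLinearMap_apply, smul_eq_mul,
      RingHom.id_apply]
    ring

theorem op_apply (c : ℚ_[ℓ]) (T : Matrix (Fin n) (Fin n) ℚ_[ℓ])
    (φ : MultilinearMap ℚ_[ℓ] (fun _ : κ => Fin n → ℚ_[ℓ]) ℚ_[ℓ]) (v : κ → Fin n → ℚ_[ℓ]) :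
    op c T φ v = c * φ (fun l => T.mulVec (v l)) := rfl

theorem op_pow (c : ℚ_[ℓ]) (T : Matrix (Fin n) (Fin n) ℚ_[ℓ]) (m : ℕ)
    (φ : MultilinearMap ℚ_[ℓ] (fun _ : κ => Fin n → ℚ_[ℓ]) ℚ_[ℓ]) (v : κ → Fin n → ℚ_[ℓ]) :
    (op c T ^ m) φ v = c ^ m * φ (fun l => (T ^ m).mulVec (v l)) := by
  induction m generalizing v with
  | zero => simp
  | succ m ih =>
    rw [pow_succ', Module.End.mul_apply, op_apply, ih, ← mul_assoc, ← pow_succ']
    congr 2
    funext l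
    rw [Matrix.mulVec_mulVec, ← pow_succ]

theorem op_near {T : Matrix (Fin n) (Fin n) ℚ_[ℓ]} {c : ℚ_[ℓ]} {r : ℝ} (hr0 : 0 ≤ r) (hr : r ≤ 1)
    (hT : Bd (T - 1) r) (hc : ‖c - 1‖ ≤ r)
    (φ : MultilinearMap ℚ_[ℓ] (fun _ : κ => Fin n → ℚ_[ℓ]) ℚ_[ℓ]) :
    nf (op c T φ - φ) ≤ r * nf φ := by
  have hc1 : ‖c‖ ≤ 1 := by
    have e : c = (c - 1) + 1 := by ring
    rw [e]
    refine (Padic.nonarchimedean _ _).trans (max_le (hc.trans hr) (by simp))
  rw [nf_le (mul_nonneg hr0 (nf_nonneg φ))]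
  intro I
  have e : (op c T φ - φ) (fun l => Pi.single (I l) 1) =
      c * (φ (fun l => T.mulVec (Pi.single (I l) 1)) - φ (fun l => Pi.single (I l) 1)) +
        (c - 1) * φ (fun l => Pi.single (I l) 1) := by
    rw [sub_apply, op_apply]
    ring
  rw [e]
  refine (Padic.nonarchimedean _ _).trans (max_le ?_ ?_)
  · rw [norm_mul]
    have h1 : ‖φ (fun l => T.mulVec (Pi.single (I l) 1)) - φ (fun l => Pi.single (I l) 1)‖
        ≤ r * nf φ := by
      rw [form_expand φ (fun l => T.mulVec (Pi.single (I l) 1)),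
        form_expand φ (fun l => (Pi.single (I l) 1 : Fin n → ℚ_[ℓ])), ← Finset.sum_sub_distrib]
      refine IsUltrametricDist.norm_sum_le_of_forall_le_of_nonneg
        (mul_nonneg hr0 (nf_nonneg φ)) fun J _ => ?_
      rw [← sub_mul, norm_mul]
      refine mul_le_mul ?_ (le_nf φ J) (norm_nonneg _) hr0
      refine prod_sub hr0 _ _ _ (fun l => ?_) (fun l => ?_) (fun l => ?_)
      · rw [Matrix.mulVec_single_one, Matrix.col_apply]
        have e : T (J l) (I l) = (T - 1) (J l) (I l) + (1 : Matrix (Fin n) (Fin n) ℚ_[ℓ]) (J l) (I l) := by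
          rw [Matrix.sub_apply]; ring
        rw [e]
        exact (Padic.nonarchimedean _ _).trans (max_le ((hT _ _).trans hr) (bd_one _ _))
      · by_cases h : J l = I l
        · rw [h, Pi.single_eq_same]; simp
        · rw [Pi.single_eq_of_ne h]; simp
      · rw [Matrix.mulVec_single_one, Matrix.col_apply]
        have e : T (J l) (I l) - (Pi.single (I l) 1 : Fin n → ℚ_[ℓ]) (J l) =
            (T - 1) (J l) (I l) := by
          rw [Matrix.sub_apply, Matrix.one_apply]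
          by_cases h : J l = I l
          · rw [h, Pi.single_eq_same, if_pos rfl]
          · rw [Pi.single_eq_of_ne h, if_neg h]
        rw [e]
        exact hT _ _
    exact (mul_le_mul hc1 h1 (norm_nonneg _) zero_le_one).trans (one_mul _).le
  · rw [norm_mul]
    exact mul_le_mul hc (le_nf φ I) (norm_nonneg _) hr0

end forms

section log

variable {ℓ : ℕ} [Fact ℓ.Prime] {n : ℕ}

/-- The logarithm of a matrix congruent to one, as a limit: a form on which the powers of `T` act by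
the powers of `c` is killed to the first order, and a form which is killed to the first order is
multiplied by a power of `c` by `T`. -/
theorem exists_log2 (T : Matrix (Fin n) (Fin n) ℚ_[ℓ]) (c : ℚ_[ℓ])
    (hT : Bd (T - 1) (((ℓ : ℝ)⁻¹) ^ 2)) (hc : ‖c - 1‖ ≤ ((ℓ : ℝ)⁻¹) ^ 2) :
    ∃ (Y₀ : Matrix (Fin n) (Fin n) ℚ_[ℓ]) (y₀ : ℚ_[ℓ]),
      (∀ (κ : Type) [Fintype κ] [DecidableEq κ]
        (φ : MultilinearMap ℚ_[ℓ] (fun _ : κ => Fin n → ℚ_[ℓ]) ℚ_[ℓ]) (N M : ℕ), 0 < N →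
        (∀ (k : ℕ) (v : κ → Fin n → ℚ_[ℓ]),
          φ (fun l => ((T ^ (ℓ ^ k)) ^ N).mulVec (v l)) = ((c ^ (ℓ ^ k)) ^ N) ^ M * φ v) →
        ∀ v, ∑ j, φ (Function.update v j (Y₀.mulVec (v j))) = M * y₀ * φ v) ∧
      ∀ (κ : Type) [Fintype κ] [DecidableEq κ]
        (φ : MultilinearMap ℚ_[ℓ] (fun _ : κ => Fin n → ℚ_[ℓ]) ℚ_[ℓ]) (M : ℕ),
        (∀ v, ∑ j, φ (Function.update v j (Y₀.mulVec (v j))) = M * y₀ * φ v) →
        ∀ v, φ (fun l => T.mulVec (v l)) = c ^ M * φ v := by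
  have hl : (1 : ℝ) < ℓ := by exact_mod_cast (Fact.out : ℓ.Prime).one_lt
  have hl0 : (0 : ℝ) < (ℓ : ℝ)⁻¹ := by positivity
  have hl1 : (ℓ : ℝ)⁻¹ < 1 := inv_lt_one_of_one_lt₀ hl
  have hp0 : (ℓ : ℚ_[ℓ]) ≠ 0 := by exact_mod_cast (Fact.out : ℓ.Prime).ne_zero
  have hr1 : ((ℓ : ℝ)⁻¹) ^ 2 ≤ 1 := pow_le_one₀ hl0.le hl1.le
  let Y : ℕ → Matrix (Fin n) (Fin n) ℚ_[ℓ] := fun k => ((ℓ : ℚ_[ℓ]) ^ k)⁻¹ • (T ^ (ℓ ^ k) - 1)
  let y : ℕ → ℚ_[ℓ] := fun k => ((ℓ : ℚ_[ℓ]) ^ k)⁻¹ * (c ^ (ℓ ^ k) - 1)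
  have hYe : ∀ k, T ^ (ℓ ^ k) = 1 + ((ℓ : ℚ_[ℓ]) ^ k) • Y k := by
    intro k
    change _ = 1 + ((ℓ : ℚ_[ℓ]) ^ k) • (((ℓ : ℚ_[ℓ]) ^ k)⁻¹ • (T ^ (ℓ ^ k) - 1))
    rw [smul_smul, mul_inv_cancel₀ (pow_ne_zero _ hp0), one_smul]
    abel
  have hye : ∀ k, c ^ (ℓ ^ k) = 1 + ((ℓ : ℚ_[ℓ]) ^ k) * y k := by
    intro k
    change _ = 1 + ((ℓ : ℚ_[ℓ]) ^ k) * (((ℓ : ℚ_[ℓ]) ^ k)⁻¹ * (c ^ (ℓ ^ k) - 1))
    rw [← mul_assoc, mul_inv_cancel₀ (pow_ne_zero _ hp0), one_mul]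
    ring
  have hYb : ∀ k i j, ‖Y k i j‖ ≤ 1 := by
    intro k i j
    have h1 := bd_pow_ell_pow hT k i j
    change ‖((ℓ : ℚ_[ℓ]) ^ k)⁻¹ * (T ^ (ℓ ^ k) - 1) i j‖ ≤ 1
    rw [norm_mul, norm_inv, norm_pow, Padic.norm_p, inv_pow, inv_inv]
    calc (ℓ : ℝ) ^ k * ‖(T ^ (ℓ ^ k) - 1) i j‖ ≤ (ℓ : ℝ) ^ k * ((ℓ : ℝ)⁻¹) ^ (k + 2) :=
          mul_le_mul_of_nonneg_left h1 (by positivity)
      _ = ((ℓ : ℝ)⁻¹) ^ 2 := by
          rw [pow_add, ← mul_assoc, ← mul_pow, mul_inv_cancel₀ (by positivity), one_pow, one_mul]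
      _ ≤ 1 := hr1
  have hyb : ∀ k, ‖y k‖ ≤ 1 := by
    intro k
    have h0 : Bd ((Matrix.of fun _ _ : Fin 1 => c) - 1) (((ℓ : ℝ)⁻¹) ^ 2) := by
      intro i j
      have hi : i = 0 := Subsingleton.elim _ _
      have hj : j = 0 := Subsingleton.elim _ _
      subst hi hj
      simpa using hc
    have h1 := bd_pow_ell_pow h0 k 0 0
    have e : ∀ m : ℕ, (Matrix.of fun _ _ : Fin 1 => c) ^ m = Matrix.of fun _ _ : Fin 1 => c ^ m := by
      intro m
      induction m with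
      | zero =>
        ext i j
        have hi : i = 0 := Subsingleton.elim _ _
        have hj : j = 0 := Subsingleton.elim _ _
        subst hi hj
        simp
      | succ m ih =>
        rw [pow_succ, ih]
        ext i j
        simp [Matrix.mul_apply, pow_succ]
    rw [e, Matrix.sub_apply, Matrix.of_apply, Matrix.one_apply_eq] at h1
    change ‖((ℓ : ℚ_[ℓ]) ^ k)⁻¹ * (c ^ (ℓ ^ k) - 1)‖ ≤ 1
    rw [norm_mul, norm_inv, norm_pow, Padic.norm_p, inv_pow, inv_inv]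
    calc (ℓ : ℝ) ^ k * ‖c ^ (ℓ ^ k) - 1‖ ≤ (ℓ : ℝ) ^ k * ((ℓ : ℝ)⁻¹) ^ (k + 2) :=
          mul_le_mul_of_nonneg_left h1 (by positivity)
      _ = ((ℓ : ℝ)⁻¹) ^ 2 := by
          rw [pow_add, ← mul_assoc, ← mul_pow, mul_inv_cancel₀ (by positivity), one_pow, one_mul]
      _ ≤ 1 := hr1
  obtain ⟨Y₀, y₀, f, hf, h1, h2⟩ := exists_lim Y y hYb hyb
  have ht : Tendsto (fun k => (ℓ : ℚ_[ℓ]) ^ (f k)) atTop (𝓝 0) := by
    have h3 : Tendsto (fun k => (ℓ : ℚ_[ℓ]) ^ k) atTop (𝓝 0) :=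
      tendsto_pow_atTop_nhds_zero_of_norm_lt_one (by rw [Padic.norm_p]; exact hl1)
    exact h3.comp hf.tendsto_atTop
  refine ⟨Y₀, y₀, ?_, ?_⟩
  · intro κ _ _ φ N M hN h v
    have h4 := first_order φ N (N * M) (fun k => (ℓ : ℚ_[ℓ]) ^ (f k))
      (fun k => pow_ne_zero _ hp0) ht (fun k => Y (f k)) (fun k => y (f k)) Y₀ y₀ h1 h2
      (fun k v => by
        rw [← hYe, ← hye, pow_mul]
        exact h (f k) v) v
    have hN0 : (N : ℚ_[ℓ]) ≠ 0 := by exact_mod_cast hN.ne'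
    apply mul_left_cancel₀ hN0
    rw [h4]
    push_cast
    ring
  · intro κ _ _ φ M h
    -- the norm of `c` is one
    have hcn : ‖c‖ = 1 := by
      have h3 : ‖c - 1‖ < 1 := hc.trans_lt (pow_lt_one₀ hl0.le hl1 two_ne_zero)
      have h4 : ‖c - 1‖ < ‖(1 : ℚ_[ℓ])‖ := by simpa using h3
      have h5 := Padic.add_eq_max_of_ne (q := c - 1) (r := 1) h4.ne
      rw [sub_add_cancel, norm_one, max_eq_right h3.le] at h5
      exact h5
    have hc0 : c ≠ 0 := by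
      intro h0
      rw [h0, norm_zero] at hcn
      exact zero_ne_one hcn
    have hci : ‖c⁻¹ - 1‖ ≤ ((ℓ : ℝ)⁻¹) ^ 2 := by
      have e : c⁻¹ - 1 = -(c⁻¹ * (c - 1)) := by
        rw [mul_sub, inv_mul_cancel₀ hc0]
        ring
      rw [e, norm_neg, norm_mul, norm_inv, hcn, inv_one, one_mul]
      exact hc
    have hcm : ∀ M : ℕ, ‖(c⁻¹) ^ M - 1‖ ≤ ((ℓ : ℝ)⁻¹) ^ 2 := by
      intro M
      induction M with
      | zero => simp
      | succ M ih =>
        have e : (c⁻¹) ^ (M + 1) - 1 = c⁻¹ * ((c⁻¹) ^ M - 1) + (c⁻¹ - 1) := by ring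
        rw [e]
        refine (Padic.nonarchimedean _ _).trans (max_le ?_ hci)
        rw [norm_mul, norm_inv, hcn, inv_one, one_mul]
        exact ih
    set U : Module.End ℚ_[ℓ] (MultilinearMap ℚ_[ℓ] (fun _ : κ => Fin n → ℚ_[ℓ]) ℚ_[ℓ]) :=
      op ((c⁻¹) ^ M) T with hU
    have hUn : ∀ ψ, nf (U ψ - ψ) ≤ ((ℓ : ℝ)⁻¹) ^ 2 * nf ψ := fun ψ =>
      op_near (by positivity) hr1 hT (hcm M) ψ
    have hrl : ((ℓ : ℝ)⁻¹) ^ 2 < (ℓ : ℝ)⁻¹ := by nlinarith
    have hlow := near_ell_pow nf nf_add nf_neg nf_smul nf_nonneg (by positivity) hrl hUn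
    -- the first order terms tend to zero
    have hlim : ∀ I : κ → Fin n, Tendsto (fun k => ((ℓ : ℚ_[ℓ]) ^ (f k))⁻¹ *
        ((U ^ (ℓ ^ (f k))) φ - φ) (fun l => Pi.single (I l) 1)) atTop (𝓝 0) := by
      intro I
      set w : κ → Fin n → ℚ_[ℓ] := fun l => Pi.single (I l) 1 with hw
      have a1 := first_lim φ (fun k => (ℓ : ℚ_[ℓ]) ^ (f k)) (fun k => pow_ne_zero _ hp0) ht
        (fun k => Y (f k)) Y₀ h1 w
      have a2 : Tendsto (fun k => qs M ((ℓ : ℚ_[ℓ]) ^ (f k)) (y (f k))) atTop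
          (𝓝 ((M : ℚ_[ℓ]) * y₀)) := by
        rw [← qs_zero]
        exact (((qs_continuous (K := ℚ_[ℓ]) M).tendsto (0, y₀)).comp (ht.prodMk_nhds h2) : _)
      have a3 : Tendsto (fun k => (ℓ : ℚ_[ℓ]) ^ (f k) * y (f k)) atTop (𝓝 0) := by
        have := ht.mul h2
        rwa [zero_mul] at this
      have a4 : Tendsto (fun k => (((c ^ (ℓ ^ (f k)))⁻¹) ^ M)) atTop (𝓝 1) := by
        have a5 : Tendsto (fun k => c ^ (ℓ ^ (f k))) atTop (𝓝 1) := by
          have a6 := a3.const_add (1 : ℚ_[ℓ])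
          rw [add_zero] at a6
          exact a6.congr fun k => (hye (f k)).symm
        have a7 := (a5.inv₀ one_ne_zero).pow M
        rwa [inv_one, one_pow] at a7
      have a5 := a4.mul (a1.sub (a2.mul_const (φ w)))
      rw [h w, sub_self, mul_zero] at a5
      refine a5.congr fun k => ?_
      have hk0 : (ℓ : ℚ_[ℓ]) ^ (f k) ≠ 0 := pow_ne_zero _ hp0
      have e1 : ((U ^ (ℓ ^ (f k))) φ - φ) w =
          ((c⁻¹) ^ M) ^ (ℓ ^ (f k)) * φ (fun l => (T ^ (ℓ ^ (f k))).mulVec (w l)) - φ w := by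
        rw [sub_apply, hU, op_pow]
      have e2 : ((c⁻¹) ^ M) ^ (ℓ ^ (f k)) = ((c ^ (ℓ ^ (f k)))⁻¹) ^ M := by
        rw [← pow_mul, mul_comm, pow_mul, inv_pow]
      have e3 := qs_spec M ((ℓ : ℚ_[ℓ]) ^ (f k)) (y (f k))
      rw [← hye] at e3
      have hck : c ^ (ℓ ^ (f k)) ≠ 0 := pow_ne_zero _ hc0
      have e4 : ((c ^ (ℓ ^ (f k)))⁻¹) ^ M * (1 + (ℓ : ℚ_[ℓ]) ^ (f k) *
          qs M ((ℓ : ℚ_[ℓ]) ^ (f k)) (y (f k))) = 1 := by
        rw [← e3, ← mul_pow, inv_mul_cancel₀ hck, one_pow]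
      rw [e1, e2, ← hYe]
      generalize ((c ^ (ℓ ^ (f k)))⁻¹) ^ M = A at *
      generalize qs M ((ℓ : ℚ_[ℓ]) ^ (f k)) (y (f k)) = B at *
      generalize φ (fun l => (T ^ (ℓ ^ (f k))).mulVec (w l)) = C at *
      generalize (ℓ : ℚ_[ℓ]) ^ (f k) = t at *
      field_simp
      linear_combination -(φ w) * e4
    have hzero : ∀ ε : ℝ, 0 < ε → nf (U φ - φ) ≤ ε := by
      intro ε hε
      have h6 : ∀ᶠ k in atTop, ∀ I : κ → Fin n, ‖((ℓ : ℚ_[ℓ]) ^ (f k))⁻¹ *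
          ((U ^ (ℓ ^ (f k))) φ - φ) (fun l => Pi.single (I l) 1)‖ < ε := by
        rw [eventually_all]
        intro I
        have h7 := (hlim I).norm
        rw [norm_zero] at h7
        exact h7.eventually (gt_mem_nhds hε)
      obtain ⟨k, hk⟩ := h6.exists
      have h8 : nf ((U ^ (ℓ ^ (f k))) φ - φ) ≤ ((ℓ : ℝ)⁻¹) ^ (f k) * ε := by
        rw [nf_le (by positivity)]
        intro I
        have h9 := (hk I).le
        rw [norm_mul, norm_inv, norm_pow, Padic.norm_p] at h9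
        have h10 : (0 : ℝ) < ((ℓ : ℝ)⁻¹) ^ (f k) := by positivity
        rw [inv_mul_le_iff₀ h10] at h9
        exact h9
      have h9 := (hlow (f k) φ).trans h8
      exact le_of_mul_le_mul_left h9 (by positivity)
    have hz : nf (U φ - φ) = 0 :=
      le_antisymm (le_of_forall_pos_le_add fun ε hε => by rw [zero_add]; exact hzero ε hε)
        (nf_nonneg _)
    have hUφ : U φ = φ := by
      refine MultilinearMap.ext fun v => ?_
      rw [form_expand (U φ) v, form_expand φ v]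
      refine Finset.sum_congr rfl fun I _ => ?_
      congr 1
      have h3 := le_nf (U φ - φ) I
      rw [hz] at h3
      have h4 := norm_le_zero_iff.1 h3
      rw [sub_apply] at h4
      exact sub_eq_zero.1 h4
    intro v
    have h3 := congrArg (fun ψ : MultilinearMap ℚ_[ℓ] (fun _ : κ => Fin n → ℚ_[ℓ]) ℚ_[ℓ] => ψ v) hUφ
    simp only [hU] at h3
    rw [op_apply] at h3
    have hcM : c ^ M ≠ 0 := pow_ne_zero _ hc0
    rw [← h3, ← mul_assoc, ← mul_pow, mul_inv_cancel₀ hc0, one_pow, one_mul]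

end log

section rep

variable {ℓ : ℕ} [Fact ℓ.Prime] {n : ℕ} {V : Type} [AddCommGroup V] [Module ℚ_[ℓ] V]
  {Γ : Type} [Group Γ] (ρ : Representation ℚ_[ℓ] Γ V) (χ : Γ →* ℚ_[ℓ])
  (b : Basis (Fin n) ℚ_[ℓ] V)

/-- A form killed by the Lie algebra of the Tate classes is multiplied by a power of the character
by the elements congruent to one. -/
theorem tate_near (s : Γ) (hs : Bd (LinearMap.toMatrix b b (ρ s) - 1) (((ℓ : ℝ)⁻¹) ^ 2))
    (hc : ‖χ s - 1‖ ≤ ((ℓ : ℝ)⁻¹) ^ 2) (m : ℕ)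
    (φ : MultilinearMap ℚ_[ℓ] (fun _ : Fin m × Fin 2 => V) ℚ_[ℓ])
    (hφ : ∀ X ∈ lieT ρ χ, Kills X φ) (u : Fin m × Fin 2 → V) :
    φ (fun l => ρ s (u l)) = χ s ^ m * φ u := by
  classical
  obtain ⟨Y₀, y₀, h1, h2⟩ := exists_log2 (LinearMap.toMatrix b b (ρ s)) (χ s) hs hc
  -- evaluation in coordinates
  have e1 : ∀ (φ : MultilinearMap ℚ_[ℓ] (fun _ : Fin m × Fin 2 => V) ℚ_[ℓ])
      (w : Fin m × Fin 2 → V) (j : Fin m × Fin 2),
      φ.compLinearMap (fun _ => b.equivFun.symm.toLinearMap)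
        (Function.update (fun l => b.equivFun (w l)) j (Y₀.mulVec (b.equivFun (w j)))) =
          φ (Function.update w j (Matrix.toLin b b Y₀ (w j))) := by
    intro φ w j
    rw [MultilinearMap.compLinearMap_apply]
    congr 1
    funext l
    by_cases hl : l = j
    · subst hl
      rw [Function.update_self, Function.update_self, Matrix.toLin_apply]
      rw [LinearEquiv.coe_coe, Basis.equivFun_symm_apply]
      rfl
    · rw [Function.update_of_ne hl, Function.update_of_ne hl, LinearEquiv.coe_coe,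
        LinearEquiv.symm_apply_apply]
  have e2 : ∀ (φ : MultilinearMap ℚ_[ℓ] (fun _ : Fin m × Fin 2 => V) ℚ_[ℓ])
      (w : Fin m × Fin 2 → V), φ.compLinearMap (fun _ => b.equivFun.symm.toLinearMap)
        (fun l => b.equivFun (w l)) = φ w := by
    intro φ w
    rw [MultilinearMap.compLinearMap_apply]
    congr 1
    funext l
    rw [LinearEquiv.coe_coe, LinearEquiv.symm_apply_apply]
  have e3 : ∀ (φ : MultilinearMap ℚ_[ℓ] (fun _ : Fin m × Fin 2 => V) ℚ_[ℓ])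
      (w : Fin m × Fin 2 → V) (j : Fin m × Fin 2),
      φ (Function.update w j ((Matrix.toLin b b Y₀ -
        (y₀ / 2) • (1 : Module.End ℚ_[ℓ] V)) (w j))) =
          φ (Function.update w j (Matrix.toLin b b Y₀ (w j))) - (y₀ / 2) * φ w := by
    intro φ w j
    rw [LinearMap.sub_apply, LinearMap.smul_apply, Module.End.one_apply,
      MultilinearMap.map_update_sub, MultilinearMap.map_update_smul, Function.update_eq_self,
      smul_eq_mul]
  have hX : Matrix.toLin b b Y₀ - (y₀ / 2) • (1 : Module.End ℚ_[ℓ] V) ∈ lieT ρ χ := by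
    intro m' ψ hψ w
    obtain ⟨Δ, hΔ, h3⟩ := hψ
    obtain ⟨N, hN, -, hsN⟩ := Subgroup.exists_pow_mem_of_index_ne_zero hΔ.index_ne_zero s
    have h4 := h1 (Fin m' × Fin 2) (ψ.compLinearMap fun _ => b.equivFun.symm.toLinearMap) N m' hN
      (fun k v => by
        have h5 : (s ^ (ℓ ^ k)) ^ N ∈ Δ := by
          rw [← pow_mul, mul_comm, pow_mul]
          exact Δ.pow_mem hsN _
        have h6 := h3 _ h5 (fun l => b.equivFun.symm (v l))
        rw [MultilinearMap.compLinearMap_apply, MultilinearMap.compLinearMap_apply]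
        simp only [LinearEquiv.coe_coe]
        rw [← map_pow χ, ← map_pow χ, ← h6]
        congr 1
        funext l
        rw [← pow_mul, mulVec_pow, LinearEquiv.symm_apply_apply, pow_mul])
      (fun l => b.equivFun (w l))
    have e1' : ∀ j, ψ.compLinearMap (fun _ => b.equivFun.symm.toLinearMap)
        (Function.update (fun l => b.equivFun (w l)) j (Y₀.mulVec (b.equivFun (w j)))) =
          ψ (Function.update w j (Matrix.toLin b b Y₀ (w j))) := by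
      intro j
      rw [MultilinearMap.compLinearMap_apply]
      congr 1
      funext l
      by_cases hl : l = j
      · subst hl
        rw [Function.update_self, Function.update_self, Matrix.toLin_apply]
        rw [LinearEquiv.coe_coe, Basis.equivFun_symm_apply]
        rfl
      · rw [Function.update_of_ne hl, Function.update_of_ne hl, LinearEquiv.coe_coe,
          LinearEquiv.symm_apply_apply]
    have e2' : ψ.compLinearMap (fun _ => b.equivFun.symm.toLinearMap)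
        (fun l => b.equivFun (w l)) = ψ w := by
      rw [MultilinearMap.compLinearMap_apply]
      congr 1
      funext l
      rw [LinearEquiv.coe_coe, LinearEquiv.symm_apply_apply]
    rw [Finset.sum_congr rfl fun j _ => e1' j, e2'] at h4
    have e3' : ∀ j, ψ (Function.update w j ((Matrix.toLin b b Y₀ -
        (y₀ / 2) • (1 : Module.End ℚ_[ℓ] V)) (w j))) =
          ψ (Function.update w j (Matrix.toLin b b Y₀ (w j))) - (y₀ / 2) * ψ w := by
      intro j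
      rw [LinearMap.sub_apply, LinearMap.smul_apply, Module.End.one_apply,
        MultilinearMap.map_update_sub, MultilinearMap.map_update_smul, Function.update_eq_self,
        smul_eq_mul]
    rw [Finset.sum_congr rfl fun j _ => e3' j, Finset.sum_sub_distrib, h4, Finset.sum_const,
      Finset.card_univ, Fintype.card_prod, Fintype.card_fin, Fintype.card_fin, nsmul_eq_mul]
    push_cast
    ring
  have h3 := hφ _ hX
  have h4 : ∀ v : Fin m × Fin 2 → Fin n → ℚ_[ℓ],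
      ∑ j, φ.compLinearMap (fun _ => b.equivFun.symm.toLinearMap)
        (Function.update v j (Y₀.mulVec (v j))) =
          m * y₀ * φ.compLinearMap (fun _ => b.equivFun.symm.toLinearMap) v := by
    intro v
    obtain ⟨w, rfl⟩ : ∃ w : Fin m × Fin 2 → V, v = fun l => b.equivFun (w l) :=
      ⟨fun l => b.equivFun.symm (v l), by
        funext l
        rw [LinearEquiv.apply_symm_apply]⟩
    rw [Finset.sum_congr rfl fun j _ => e1 φ w j, e2]
    have h5 := h3 w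
    rw [Finset.sum_congr rfl fun j _ => e3 φ w j, Finset.sum_sub_distrib, Finset.sum_const,
      Finset.card_univ, Fintype.card_prod, Fintype.card_fin, Fintype.card_fin, nsmul_eq_mul] at h5
    rw [sub_eq_zero.1 h5]
    push_cast
    ring
  have h5 := h2 (Fin m × Fin 2) (φ.compLinearMap fun _ => b.equivFun.symm.toLinearMap) m h4
    (fun l => b.equivFun (u l))
  rw [e2] at h5
  rw [← h5, MultilinearMap.compLinearMap_apply]
  congr 1
  funext l
  have h6 := mulVec_pow ρ b s 1 (b.equivFun (u l))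
  rw [pow_one, pow_one, LinearEquiv.symm_apply_apply] at h6
  rw [h6, LinearEquiv.coe_coe, LinearEquiv.symm_apply_apply]

/-- A form killed by the Lie algebra of the Tate classes is a Tate class. -/
theorem tate_of_lieT [FiniteDimensional ℚ_[ℓ] V] [TopologicalSpace Γ] [IsTopologicalGroup Γ]
    [CompactSpace Γ]
    (hρ : ∀ (f : V →ₗ[ℚ_[ℓ]] ℚ_[ℓ]) (v : V), Continuous fun s => f (ρ s v))
    (hχ : Continuous χ) (m : ℕ) (φ : MultilinearMap ℚ_[ℓ] (fun _ : Fin m × Fin 2 => V) ℚ_[ℓ])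
    (hφ : ∀ X ∈ lieT ρ χ, Kills X φ) : IsTate ρ χ m φ := by
  obtain ⟨Δ, h1, h2⟩ := exists_near ρ χ (finBasis ℚ_[ℓ] V) hρ hχ
  exact ⟨Δ, h1, fun s hs v =>
    tate_near ρ χ (finBasis ℚ_[ℓ] V) s (h2 s hs).1 (h2 s hs).2 m φ hφ v⟩

end rep

end Pool.Agent.U103.CF
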