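import Mathlib
import Pool.Agent.U188.MTQ.Main
import Pool.Agent.U103.CF.Exp

/-!
# Common rational forms: the quartic classes decide
-/

set_option autoImplicit false
set_option linter.unusedSectionVars false

namespace Pool.Agent.U103.CF

open Module TensorProduct Pool.Agent.H204R3.SP Pool.Agent.H204R3.GP Pool.Agent.W516.KC
  Pool.Agent.W516.MTD Pool.Agent.W516.MTM Pool.Agent.W516.DR Pool.Agent.W516 Pool.Agent.U188.MTQ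

section alg

variable {k : Type} [Field k] [CharZero k] {W T : Type} [AddCommGroup W] [Module ℚ W]
  [FiniteDimensional ℚ W] [AddCommGroup T] [Module ℂ T] (per : W →+ T)
  {Γ : Type} [Group Γ] (ρ : Representation k Γ (k ⊗[ℚ] W)) (χ : Γ →* k)
  (ω₀ : W →ₗ[ℚ] W →ₗ[ℚ] ℚ) (ω : k ⊗[ℚ] W →ₗ[k] k ⊗[ℚ] W →ₗ[k] k)

/-- `φ` is the extension of the rational form `ψ` -/
def Ext {κ : Type} (ψ : MultilinearMap ℚ (fun _ : κ => W) ℚ)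
    (φ : MultilinearMap k (fun _ : κ => k ⊗[ℚ] W) k) : Prop :=
  ∀ v : κ → W, φ (fun l => (1 : k) ⊗ₜ[ℚ] v l) = algebraMap ℚ k (ψ v)

theorem ext_eq_bcm {κ : Type} [Fintype κ] [DecidableEq κ]
    {ψ : MultilinearMap ℚ (fun _ : κ => W) ℚ}
    {φ : MultilinearMap k (fun _ : κ => k ⊗[ℚ] W) k} (h : Ext ψ φ) :
    φ = bcm (Ω := k) (Module.finBasis ℚ W) ψ := by
  refine Basis.ext_multilinear (fun _ => (Module.finBasis ℚ W).baseChange k) fun I => ?_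
  rw [bcm_basis]
  have h1 : (fun l => (Module.finBasis ℚ W).baseChange k (I l)) =
      fun l => (1 : k) ⊗ₜ[ℚ] (Module.finBasis ℚ W) (I l) := by
    funext l
    rw [Basis.baseChange_apply]
  rw [h1]
  exact h _

/-- Sums of killing endomorphisms kill. -/
theorem kills_extEnd {κ : Type} [Fintype κ] [DecidableEq κ] (S : (W →ₗ[ℚ] W) → Prop)
    (φ : MultilinearMap k (fun _ : κ => k ⊗[ℚ] W) k)
    (h : ∀ Z : W →ₗ[ℚ] W, S Z → Kills (Z.baseChange k) φ)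
    {X : Module.End k (k ⊗[ℚ] W)} (hX : X ∈ extEnd k S) : Kills X φ := by
  unfold extEnd at hX
  induction hX using Submodule.span_induction with
  | mem X hX =>
    obtain ⟨Z, hZ, rfl⟩ := hX
    exact h Z hZ
  | zero =>
    intro v
    refine Finset.sum_eq_zero fun j _ => ?_
    rw [LinearMap.zero_apply]
    exact φ.map_coord_zero j (Function.update_self _ _ _)
  | add X Y _ _ h1 h2 =>
    intro v
    have h3 : ∀ j, φ (Function.update v j ((X + Y) (v j))) =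
        φ (Function.update v j (X (v j))) + φ (Function.update v j (Y (v j))) := by
      intro j
      rw [LinearMap.add_apply, MultilinearMap.map_update_add]
    rw [Finset.sum_congr rfl fun j _ => h3 j, Finset.sum_add_distrib, h1 v, h2 v, add_zero]
  | smul c X _ h1 =>
    intro v
    have h3 : ∀ j, φ (Function.update v j ((c • X) (v j))) =
        c * φ (Function.update v j (X (v j))) := by
      intro j
      rw [LinearMap.smul_apply, MultilinearMap.map_update_smul, smul_eq_mul]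
    rw [Finset.sum_congr rfl fun j _ => h3 j, ← Finset.mul_sum, h1 v, mul_zero]

variable (hper : MTD.IsRationalStructure per) (hR : IsRiemannForm per ω₀)
  (hωω : ∀ u v : W, ω ((1 : k) ⊗ₜ[ℚ] u) ((1 : k) ⊗ₜ[ℚ] v) = algebraMap ℚ k (ω₀ u v))
  (hD : Deligne per ρ χ) (hC : Centres per ρ χ)

include hper hR hωω hD hC in
/-- A rational endomorphism which kills a family of rational forms containing the Hodge classes,
such that `Θ` is a combination of these forms, is in the Lie algebra of the Tate classes. -/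
theorem mem_of_kills
    (Θ : MultilinearMap k (fun _ : Fin 2 × Fin 2 => k ⊗[ℚ] W) k)
    (hΘ : ∀ Z : Module.End k (k ⊗[ℚ] W), (∀ u v, ω (Z u) v + ω u (Z v) = 0) →
        (∀ P ∈ endos k per, Z * P = P * Z) → Kills Z Θ →
        ∃ C ∈ endos k per, (∀ P ∈ endos k per, C * P = P * C) ∧ Z - C ∈ lieT ρ χ)
    (S : ∀ m : ℕ, MultilinearMap ℚ (fun _ : Fin m × Fin 2 => W) ℚ → Prop)
    (hS1 : ∀ m ψ, IsHodgeTensor per ψ → S m ψ)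
    (hS : Θ ∈ Submodule.span k {φ' : MultilinearMap k (fun _ : Fin 2 × Fin 2 => k ⊗[ℚ] W) k |
      ∃ ψ : MultilinearMap ℚ (fun _ : Fin 2 × Fin 2 => W) ℚ, S 2 ψ ∧
        ∀ v : Fin 2 × Fin 2 → W, φ' (fun l => (1 : k) ⊗ₜ[ℚ] v l) = algebraMap ℚ k (ψ v)})
    (Z₀ : Module.End ℚ W) (hk : ∀ m ψ, S m ψ → Kills Z₀ ψ) : Z₀.baseChange k ∈ lieT ρ χ := by
  have hRH := riemann_hodge per ω₀ hR
  have hkH : ∀ (m' : ℕ) (ψ : MultilinearMap ℚ (fun _ : Fin m' × Fin 2 => W) ℚ),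
      IsHodgeTensor per ψ → Kills Z₀ ψ := fun m' ψ h => hk m' ψ (hS1 m' ψ h)
  have hZs : IsSkew ω (Z₀.baseChange k) :=
    skew_ext ω₀ ω hωω ((kills_one2 ω₀ Z₀).1 (hkH 1 _ (one2_hodge per ω₀ hRH)))
  have hZk : Kills (Z₀.baseChange k) Θ := kills_span (S 2) Z₀ (hk 2) _ hS
  obtain ⟨C, hC1, hC2, hC3⟩ := hΘ (Z₀.baseChange k) hZs
    (fun P hP => comm_endos per ω₀ hper hR Z₀ hkH hP) hZk
  have hCm : C ∈ lieT ρ χ := by
    refine hC _ hC1 hC2 (fun m φ hφ => ?_)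
    have h2 := kills_span (fun ψ => IsHodgeTensor per ψ) Z₀ (hkH m) φ ((hc_iff per φ).1 hφ)
    have h3 := lieT_hc per ρ χ hD hC3 φ hφ
    intro v
    have h4 : ∀ j, φ (Function.update v j (C (v j))) =
        φ (Function.update v j (Z₀.baseChange k (v j))) -
          φ (Function.update v j ((Z₀.baseChange k - C) (v j))) := by
      intro j
      rw [← MultilinearMap.map_update_sub, LinearMap.sub_apply, sub_sub_cancel]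
    rw [Finset.sum_congr rfl (fun j _ => h4 j), Finset.sum_sub_distrib, h2 v, h3 v, sub_zero]
  have h2 : Z₀.baseChange k = (Z₀.baseChange k - C) + C := by abel
  rw [h2]
  exact Submodule.add_mem _ hC3 hCm

end alg

section single

variable {k : Type} [Field k] [CharZero k] {W : Type} [AddCommGroup W] [Module ℚ W]
  {Γ : Type} [Group Γ] (ρ : Representation k Γ (k ⊗[ℚ] W)) (χ : Γ →* k)

/-- The action is continuous. -/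
def IsContinuousAction [TopologicalSpace k] [TopologicalSpace Γ] : Prop :=
  ∀ (f : k ⊗[ℚ] W →ₗ[k] k) (v : k ⊗[ℚ] W), Continuous fun s => f (ρ s v)

/-- The bilinear form `ω₀` on `W` extends to a form which is multiplied by the character `χ`. -/
def HasWeilPairing (ω₀ : W →ₗ[ℚ] W →ₗ[ℚ] ℚ) : Prop :=
  ∃ ω : k ⊗[ℚ] W →ₗ[k] k ⊗[ℚ] W →ₗ[k] k,
    (∀ u v : W, ω ((1 : k) ⊗ₜ[ℚ] u) ((1 : k) ⊗ₜ[ℚ] v) = ((ω₀ u v : ℚ) : k)) ∧
      ∀ s u v, ω (ρ s u) (ρ s v) = χ s * ω u v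

end single

section family

variable {W T : Type} [AddCommGroup W] [Module ℚ W] [FiniteDimensional ℚ W] [AddCommGroup T]
  [Module ℂ T] {Γ : Type} [Group Γ]
  (ρ : ∀ (ℓ : ℕ) [Fact ℓ.Prime], Representation ℚ_[ℓ] Γ (ℚ_[ℓ] ⊗[ℚ] W))
  (χ : ∀ (ℓ : ℕ) [Fact ℓ.Prime], Γ →* ℚ_[ℓ]) (Q : Set ℕ)

/-- The rational form `ψ` is for each `ℓ` in `Q` a Tate class. -/
def IsCommonTate (m : ℕ) (ψ : MultilinearMap ℚ (fun _ : Fin m × Fin 2 => W) ℚ) : Prop :=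
  ∀ (ℓ : ℕ) [Fact ℓ.Prime], ℓ ∈ Q →
    ∀ φ : MultilinearMap ℚ_[ℓ] (fun _ : Fin m × Fin 2 => ℚ_[ℓ] ⊗[ℚ] W) ℚ_[ℓ], (∀ v : Fin m × Fin 2 → W, φ (fun l => (1 : ℚ_[ℓ]) ⊗ₜ[ℚ] v l) = ((ψ v : ℚ) : ℚ_[ℓ])) →
      IsTateTensor (ρ ℓ) (χ ℓ) m φ

/-- The `ℓ`-adic form `φ` is a linear combination of common rational Tate classes. -/
def IsCommonCombination (ℓ : ℕ) [Fact ℓ.Prime] (m : ℕ)
    (φ : MultilinearMap ℚ_[ℓ] (fun _ : Fin m × Fin 2 => ℚ_[ℓ] ⊗[ℚ] W) ℚ_[ℓ]) : Prop :=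
  φ ∈ Submodule.span ℚ_[ℓ]
    {φ' : MultilinearMap ℚ_[ℓ] (fun _ : Fin m × Fin 2 => ℚ_[ℓ] ⊗[ℚ] W) ℚ_[ℓ] |
      ∃ ψ : MultilinearMap ℚ (fun _ : Fin m × Fin 2 => W) ℚ, IsCommonTate ρ χ Q m ψ ∧
        ∀ v : Fin m × Fin 2 → W, φ' (fun l => (1 : ℚ_[ℓ]) ⊗ₜ[ℚ] v l) = ((ψ v : ℚ) : ℚ_[ℓ])}

/-- For each `ℓ` in `Q` all `ℓ`-adic Tate classes, of all degrees, are linear combinations of common
rational Tate classes. -/
def TateClassesAreCommon : Prop :=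
  ∀ (ℓ : ℕ) [Fact ℓ.Prime], ℓ ∈ Q → ∀ (m : ℕ)
    (φ : MultilinearMap ℚ_[ℓ] (fun _ : Fin m × Fin 2 => ℚ_[ℓ] ⊗[ℚ] W) ℚ_[ℓ]),
    IsTateTensor (ρ ℓ) (χ ℓ) m φ → IsCommonCombination ρ χ Q ℓ m φ

/-- The rational space `𝔤` of endomorphisms spans for each `ℓ` in `Q` the endomorphisms which
annihilate all the `ℓ`-adic Tate classes. -/
def IsCommonLie (𝔤 : Submodule ℚ (Module.End ℚ W)) : Prop :=
  ∀ (ℓ : ℕ) [Fact ℓ.Prime], ℓ ∈ Q → ∀ X : Module.End ℚ_[ℓ] (ℚ_[ℓ] ⊗[ℚ] W),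
    X ∈ Submodule.span ℚ_[ℓ] {Y : Module.End ℚ_[ℓ] (ℚ_[ℓ] ⊗[ℚ] W) |
      ∃ Z ∈ 𝔤, Y = LinearMap.baseChange ℚ_[ℓ] Z} ↔
    ∀ (m : ℕ) (φ : MultilinearMap ℚ_[ℓ] (fun _ : Fin m × Fin 2 => ℚ_[ℓ] ⊗[ℚ] W) ℚ_[ℓ]),
      IsTateTensor (ρ ℓ) (χ ℓ) m φ → Annihilates X φ

/-- The actions `ρ ℓ` on the Tate modules and the characters `χ ℓ` are continuous, and the polarization
`ω₀` extends to pairings (the Weil pairings) which are multiplied by the characters. -/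
def IsTateSystem [TopologicalSpace Γ] (ω₀ : W →ₗ[ℚ] W →ₗ[ℚ] ℚ) : Prop :=
  ∀ (ℓ : ℕ) [Fact ℓ.Prime], IsContinuousAction (ρ ℓ) ∧ Continuous (χ ℓ) ∧ HasWeilPairing (ρ ℓ) (χ ℓ) ω₀

/-- The theorems of Faltings (semisimplicity and endomorphisms), of Deligne (Hodge classes are Tate
classes) and of Vasiu and Ullmo-Yafaev (on centres), for each `ℓ`. -/
def KnownTheorems (per : W →+ T) : Prop :=
  ∀ (ℓ : ℕ) [Fact ℓ.Prime], Semisimple (ρ ℓ) ∧ Faltings per (ρ ℓ) ∧ Deligne per (ρ ℓ) (χ ℓ) ∧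
    Centres per (ρ ℓ) (χ ℓ)

variable [TopologicalSpace Γ] [IsTopologicalGroup Γ] [CompactSpace Γ]
  (hρ : ∀ (ℓ : ℕ) [Fact ℓ.Prime] (f : ℚ_[ℓ] ⊗[ℚ] W →ₗ[ℚ_[ℓ]] ℚ_[ℓ]) (v : ℚ_[ℓ] ⊗[ℚ] W),
    Continuous fun s => f (ρ ℓ s v))
  (hχ : ∀ (ℓ : ℕ) [Fact ℓ.Prime], Continuous (χ ℓ))

theorem algMap_eq (ℓ : ℕ) [Fact ℓ.Prime] (q : ℚ) : algebraMap ℚ ℚ_[ℓ] q = (q : ℚ_[ℓ]) := eq_ratCast _ _

include hρ hχ in
/-- A common Lie algebra gives common Tate classes. -/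
theorem common_of_lie (𝔤 : Submodule ℚ (Module.End ℚ W)) (h𝔤 : IsCommonLie ρ χ Q 𝔤)
    (ℓ : ℕ) [Fact ℓ.Prime] (hℓ : ℓ ∈ Q) (m : ℕ)
    (φ : MultilinearMap ℚ_[ℓ] (fun _ : Fin m × Fin 2 => ℚ_[ℓ] ⊗[ℚ] W) ℚ_[ℓ])
    (hφ : IsTateTensor (ρ ℓ) (χ ℓ) m φ) : IsCommonCombination ρ χ Q ℓ m φ := by
  have h1 := form_mem_span (k := ℚ_[ℓ]) (IsCommonTate ρ χ Q m) φ (fun lam => ?_)
  · unfold IsCommonCombination
    simpa only [algMap_eq] using h1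
  · intro ℓ' _ hℓ' φ' hφ'
    refine tate_of_lieT (ρ ℓ') (χ ℓ') (hρ ℓ') (hχ ℓ') m φ' (fun X hX => ?_)
    have h2 : X ∈ extEnd ℚ_[ℓ'] (fun Z => Z ∈ 𝔤) := (h𝔤 ℓ' hℓ' X).2 hX
    refine kills_extEnd (fun Z => Z ∈ 𝔤) φ' (fun Z hZ => ?_) h2
    have h3 : Z.baseChange ℚ_[ℓ] ∈ lieT (ρ ℓ) (χ ℓ) :=
      (h𝔤 ℓ hℓ _).1 (Submodule.subset_span ⟨Z, hZ, rfl⟩)
    have h4 : Kills (Z.baseChange ℚ_[ℓ]) φ := h3 m φ hφ
    exact kills_ext φ' (fcmp lam φ) (fun v => by rw [hφ' v, algMap_eq]) Z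
      (kills_fcmp lam φ Z h4)

/-- **Common rational forms and the quartic classes.** -/
theorem quartic_common (per : W →+ T) (ω₀ : W →ₗ[ℚ] W →ₗ[ℚ] ℚ)
    (ω : ∀ (ℓ : ℕ) [Fact ℓ.Prime], ℚ_[ℓ] ⊗[ℚ] W →ₗ[ℚ_[ℓ]] ℚ_[ℓ] ⊗[ℚ] W →ₗ[ℚ_[ℓ]] ℚ_[ℓ])
    (hper : MTD.IsRationalStructure per) (hR : IsRiemannForm per ω₀)
    (hωω : ∀ (ℓ : ℕ) [Fact ℓ.Prime] (u v : W),
      ω ℓ ((1 : ℚ_[ℓ]) ⊗ₜ[ℚ] u) ((1 : ℚ_[ℓ]) ⊗ₜ[ℚ] v) = ((ω₀ u v : ℚ) : ℚ_[ℓ]))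
    (hωρ : ∀ (ℓ : ℕ) [Fact ℓ.Prime] s u v, ω ℓ (ρ ℓ s u) (ρ ℓ s v) = χ ℓ s * ω ℓ u v)
    (hρ : ∀ (ℓ : ℕ) [Fact ℓ.Prime] (f : ℚ_[ℓ] ⊗[ℚ] W →ₗ[ℚ_[ℓ]] ℚ_[ℓ]) (v : ℚ_[ℓ] ⊗[ℚ] W),
      Continuous fun s => f (ρ ℓ s v))
    (hχ : ∀ (ℓ : ℕ) [Fact ℓ.Prime], Continuous (χ ℓ))
    (hss : ∀ (ℓ : ℕ) [Fact ℓ.Prime], Semisimple (ρ ℓ))
    (hF : ∀ (ℓ : ℕ) [Fact ℓ.Prime], Faltings per (ρ ℓ))
    (hD : ∀ (ℓ : ℕ) [Fact ℓ.Prime], Deligne per (ρ ℓ) (χ ℓ))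
    (hC : ∀ (ℓ : ℕ) [Fact ℓ.Prime], Centres per (ρ ℓ) (χ ℓ)) :
    ∃ Θ : ∀ (ℓ : ℕ) [Fact ℓ.Prime],
        MultilinearMap ℚ_[ℓ] (fun _ : Fin 2 × Fin 2 => ℚ_[ℓ] ⊗[ℚ] W) ℚ_[ℓ],
      (∀ (ℓ : ℕ) [Fact ℓ.Prime] s v, Θ ℓ (fun l => ρ ℓ s (v l)) = χ ℓ s ^ 2 * Θ ℓ v) ∧
      ∀ Q : Set ℕ, (∀ (ℓ : ℕ) [Fact ℓ.Prime], ℓ ∈ Q → IsCommonCombination ρ χ Q ℓ 2 (Θ ℓ)) →
        ∃ 𝔤 : Submodule ℚ (Module.End ℚ W), IsCommonLie ρ χ Q 𝔤 := by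
  have hq := fun (ℓ : ℕ) [Fact ℓ.Prime] => quartic per (ρ ℓ) (χ ℓ) ω₀ (ω ℓ) hper hR (hωω ℓ) (hωρ ℓ) (hρ ℓ) (hχ ℓ)
    (hss ℓ) (hF ℓ) (hD ℓ) (hC ℓ)
  choose Θ h1 h2 h3 using hq
  refine ⟨Θ, h1, fun Q hΘ => ?_⟩
  let 𝔤 : Submodule ℚ (Module.End ℚ W) :=
    { carrier := {Z | ∀ m ψ, IsCommonTate ρ χ Q m ψ → Kills Z ψ}
      zero_mem' := by
        intro m ψ _ v
        refine Finset.sum_eq_zero fun j _ => ?_
        rw [LinearMap.zero_apply]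
        exact ψ.map_coord_zero j (Function.update_self _ _ _)
      add_mem' := by
        intro X Y hX hY m ψ hψ v
        have e : ∀ j, ψ (Function.update v j ((X + Y) (v j))) =
            ψ (Function.update v j (X (v j))) + ψ (Function.update v j (Y (v j))) := by
          intro j
          rw [LinearMap.add_apply, MultilinearMap.map_update_add]
        rw [Finset.sum_congr rfl fun j _ => e j, Finset.sum_add_distrib, hX m ψ hψ v,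
          hY m ψ hψ v, add_zero]
      smul_mem' := by
        intro c X hX m ψ hψ v
        have e : ∀ j, ψ (Function.update v j ((c • X) (v j))) =
            c * ψ (Function.update v j (X (v j))) := by
          intro j
          rw [LinearMap.smul_apply, MultilinearMap.map_update_smul, smul_eq_mul]
        rw [Finset.sum_congr rfl fun j _ => e j, ← Finset.mul_sum, hX m ψ hψ v, mul_zero] }
  refine ⟨𝔤, fun ℓ _ hℓ X => ⟨fun hX => ?_, fun hX => ?_⟩⟩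
  · -- the elements of the rational space are in the Lie algebra
    intro m φ hφ
    have hX' : X ∈ extEnd ℚ_[ℓ] (fun Z => Z ∈ 𝔤) := hX
    refine kills_extEnd (fun Z => Z ∈ 𝔤) φ (fun Z hZ => ?_) hX'
    have h4 : Z.baseChange ℚ_[ℓ] ∈ lieT (ρ ℓ) (χ ℓ) := by
      refine mem_of_kills per (ρ ℓ) (χ ℓ) ω₀ (ω ℓ) hper hR
        (fun u v => by rw [hωω ℓ, algMap_eq]) (hD ℓ) (hC ℓ) (Θ ℓ) (h2 ℓ)
        (fun m ψ => IsCommonTate ρ χ Q m ψ) ?_ ?_ Z hZ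
      · intro m ψ hψ ℓ' _ _ φ' hφ'
        exact hD ℓ' m ψ hψ φ' hφ'
      · have h5 := hΘ ℓ hℓ
        unfold IsCommonCombination at h5
        simpa only [algMap_eq] using h5
    exact h4 m φ hφ
  · -- what annihilates the Tate classes annihilates the common forms
    have h5 : X ∈ extEnd ℚ_[ℓ] (fun Z => Z ∈ 𝔤) := by
      refine end_mem_span _ X fun lam => ?_
      intro m ψ hψ
      have h6 : Kills X (bcm (Ω := ℚ_[ℓ]) (Module.finBasis ℚ W) ψ) :=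
        hX m _ (hψ ℓ hℓ _ fun v => by rw [bcm_one, algMap_eq])
      exact (kills_bcm_iff (Module.finBasis ℚ W) ψ X).1 h6 lam
    exact h5

end family

end Pool.Agent.U103.CF
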