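import Mathlib
import Pool.Agent.U103.CF.Main

/-!
# Common rational forms: two primes at a time
-/

set_option autoImplicit false
set_option linter.unusedSectionVars false

namespace Pool.Agent.U103.CF

open Module TensorProduct Pool.Agent.H204R3.SP Pool.Agent.H204R3.GP Pool.Agent.W516.KC
  Pool.Agent.W516.MTD Pool.Agent.W516.MTM Pool.Agent.W516.DR Pool.Agent.W516 Pool.Agent.U188.MTQ

variable {W : Type} [AddCommGroup W] [Module ℚ W] [FiniteDimensional ℚ W]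
  {Γ : Type} [Group Γ]
  (ρ : ∀ (ℓ : ℕ) [Fact ℓ.Prime], Representation ℚ_[ℓ] Γ (ℚ_[ℓ] ⊗[ℚ] W))
  (χ : ∀ (ℓ : ℕ) [Fact ℓ.Prime], Γ →* ℚ_[ℓ])

/-- The common rational form is determined at one prime. -/
theorem mem_iff_of_common {Q : Set ℕ} {𝔤 : Submodule ℚ (Module.End ℚ W)}
    (h : IsCommonLie ρ χ Q 𝔤) (ℓ : ℕ) [Fact ℓ.Prime] (hℓ : ℓ ∈ Q) (Z : Module.End ℚ W) :
    Z ∈ 𝔤 ↔ ∀ (m : ℕ) (φ : MultilinearMap ℚ_[ℓ] (fun _ : Fin m × Fin 2 => ℚ_[ℓ] ⊗[ℚ] W) ℚ_[ℓ]),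
      IsTateTensor (ρ ℓ) (χ ℓ) m φ → Annihilates (LinearMap.baseChange ℚ_[ℓ] Z) φ := by
  constructor
  · intro hZ
    exact (h ℓ hℓ _).1 (Submodule.subset_span ⟨Z, hZ, rfl⟩)
  · intro hZ
    have h1 : LinearMap.baseChange ℚ_[ℓ] Z ∈ extEnd ℚ_[ℓ] (fun P => P ∈ 𝔤) := (h ℓ hℓ _).2 hZ
    obtain ⟨lam, hlam⟩ : ∃ lam : ℚ_[ℓ] →ₗ[ℚ] ℚ, lam 1 ≠ 0 := by
      by_contra hne
      push Not at hne
      exact one_ne_zero (eq_zero_of_dual (k := ℚ) (x := (1 : ℚ_[ℓ])) hne)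
    have h2 := cmp_of_ext 𝔤 h1 lam
    have h3 : cmpE lam (LinearMap.baseChange ℚ_[ℓ] Z) = lam 1 • Z := by
      ext w
      rw [cmpE_apply, LinearMap.baseChange_tmul, cmp_tmul]
      rfl
    rw [h3] at h2
    have h4 := 𝔤.smul_mem (lam 1)⁻¹ h2
    rwa [smul_smul, inv_mul_cancel₀ hlam, one_smul] at h4

/-- A common rational form for every two primes is one for all. -/
theorem common_of_pairs (Q : Set ℕ)
    (h : ∀ (ℓ ℓ' : ℕ) [Fact ℓ.Prime] [Fact ℓ'.Prime], ℓ ∈ Q → ℓ' ∈ Q →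
      ∃ 𝔤 : Submodule ℚ (Module.End ℚ W), IsCommonLie ρ χ {ℓ, ℓ'} 𝔤) :
    ∃ 𝔤 : Submodule ℚ (Module.End ℚ W), IsCommonLie ρ χ Q 𝔤 := by
  by_cases hQ : ∃ ℓ ∈ Q, ℓ.Prime
  · obtain ⟨p, hp, hpp⟩ := hQ
    have : Fact p.Prime := ⟨hpp⟩
    obtain ⟨𝔤, h𝔤⟩ := h p p hp hp
    refine ⟨𝔤, fun ℓ _ hℓ X => ?_⟩
    obtain ⟨𝔤', h𝔤'⟩ := h p ℓ hp hℓ
    have e : 𝔤 = 𝔤' := by
      ext Z
      rw [mem_iff_of_common ρ χ h𝔤 p (by simp) Z, mem_iff_of_common ρ χ h𝔤' p (by simp) Z]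
    rw [e]
    exact h𝔤' ℓ (by simp) X
  · refine ⟨⊥, fun ℓ hl hℓ X => ?_⟩
    exact absurd ⟨ℓ, hℓ, hl.out⟩ hQ

/-- A common rational form for a set of primes is one for each subset. -/
theorem common_mono {Q Q' : Set ℕ} (hQ : Q' ⊆ Q) {𝔤 : Submodule ℚ (Module.End ℚ W)}
    (h : IsCommonLie ρ χ Q 𝔤) : IsCommonLie ρ χ Q' 𝔤 := fun ℓ _ hℓ => h ℓ (hQ hℓ)

end Pool.Agent.U103.CF
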