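import Mathlib
import Pool.Agent.U103.CF.Main
import Pool.Agent.U103.CF.Pairs

/-!
# The two parts of the Mumford-Tate conjecture
-/

set_option autoImplicit false
set_option linter.unusedSectionVars false

namespace Pool.Agent.U103.CF

open Module TensorProduct Pool.Agent.H204R3.SP Pool.Agent.H204R3.GP Pool.Agent.W516.KC
  Pool.Agent.W516.MTD Pool.Agent.W516.MTM Pool.Agent.W516.DR Pool.Agent.W516 Pool.Agent.U188.MTQ

section one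

variable {k : Type} [Field k] [CharZero k] {W T : Type} [AddCommGroup W] [Module ℚ W]
  [FiniteDimensional ℚ W] [AddCommGroup T] [Module ℂ T] (per : W →+ T)

/-- A rational form whose extension is a combination of Hodge classes is a Hodge class. -/
theorem hodge_of_ext (hper : MTD.IsRationalStructure per) {m : ℕ}
    (ψ : MultilinearMap ℚ (fun _ : Fin m × Fin 2 => W) ℚ)
    (φ : MultilinearMap k (fun _ : Fin m × Fin 2 => k ⊗[ℚ] W) k)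
    (h : ∀ v : Fin m × Fin 2 → W, φ (fun l => (1 : k) ⊗ₜ[ℚ] v l) = algebraMap ℚ k (ψ v))
    (hφ : MTD.IsHodgeCombination per φ) : IsHodgeTensor per ψ := by
  obtain ⟨lam, hlam⟩ : ∃ lam : k →ₗ[ℚ] ℚ, lam 1 ≠ 0 := by
    by_contra hne
    push Not at hne
    exact one_ne_zero (eq_zero_of_dual (k := ℚ) (x := (1 : k)) hne)
  refine hodge_of_kills per hper ψ fun Z hk => ?_
  have h1 := kills_span (fun ψ => IsHodgeTensor per ψ) Z (hk m) φ ((hc_iff per φ).1 hφ)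
  have h2 := kills_fcmp lam φ Z h1
  have e : ∀ v, fcmp lam φ v = lam 1 * ψ v := by
    intro v
    rw [fcmp_apply, h v]
    have h3 : algebraMap ℚ k (ψ v) = (ψ v) • (1 : k) := by
      rw [Algebra.smul_def, mul_one]
    rw [h3, map_smul, smul_eq_mul, mul_comm]
  intro v
  have h4 := h2 v
  rw [Finset.sum_congr rfl fun j _ => e _, ← Finset.mul_sum] at h4
  exact (mul_eq_zero.1 h4).resolve_left hlam

end one

section family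

variable {W T : Type} [AddCommGroup W] [Module ℚ W] [FiniteDimensional ℚ W] [AddCommGroup T]
  [Module ℂ T] {Γ : Type} [Group Γ]
  (ρ : ∀ (ℓ : ℕ) [Fact ℓ.Prime], Representation ℚ_[ℓ] Γ (ℚ_[ℓ] ⊗[ℚ] W))
  (χ : ∀ (ℓ : ℕ) [Fact ℓ.Prime], Γ →* ℚ_[ℓ]) (per : W →+ T)

/-- The Mumford-Tate conjecture at the prime `ℓ`, in terms of classes: all `ℓ`-adic Tate classes are
linear combinations of Hodge classes. -/
def MumfordTateAt (ℓ : ℕ) [Fact ℓ.Prime] : Prop :=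
  ∀ (m : ℕ) (φ : MultilinearMap ℚ_[ℓ] (fun _ : Fin m × Fin 2 => ℚ_[ℓ] ⊗[ℚ] W) ℚ_[ℓ]),
    IsTateTensor (ρ ℓ) (χ ℓ) m φ → MTD.IsHodgeCombination per φ

theorem common_of_hodge (hD : ∀ (ℓ : ℕ) [Fact ℓ.Prime], Deligne per (ρ ℓ) (χ ℓ)) (Q : Set ℕ)
    (ℓ : ℕ) [Fact ℓ.Prime] (m : ℕ)
    (φ : MultilinearMap ℚ_[ℓ] (fun _ : Fin m × Fin 2 => ℚ_[ℓ] ⊗[ℚ] W) ℚ_[ℓ])
    (hφ : MTD.IsHodgeCombination per φ) : IsCommonCombination ρ χ Q ℓ m φ := by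
  unfold MTD.IsHodgeCombination at hφ
  unfold IsCommonCombination
  refine Submodule.span_mono ?_ hφ
  rintro φ' ⟨ψ, hψ, h⟩
  exact ⟨ψ, fun ℓ' _ _ φ'' h'' => hD ℓ' m ψ hψ φ'' h'', h⟩

theorem hodge_of_common (Q : Set ℕ) (ℓ : ℕ) [Fact ℓ.Prime] (m : ℕ)
    (hQ : ∀ ψ : MultilinearMap ℚ (fun _ : Fin m × Fin 2 => W) ℚ,
      IsCommonTate ρ χ Q m ψ → IsHodgeTensor per ψ)
    (φ : MultilinearMap ℚ_[ℓ] (fun _ : Fin m × Fin 2 => ℚ_[ℓ] ⊗[ℚ] W) ℚ_[ℓ])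
    (hφ : IsCommonCombination ρ χ Q ℓ m φ) : MTD.IsHodgeCombination per φ := by
  unfold IsCommonCombination at hφ
  unfold MTD.IsHodgeCombination
  refine Submodule.span_mono ?_ hφ
  rintro φ' ⟨ψ, hψ, h⟩
  exact ⟨ψ, hQ ψ hψ, h⟩

/-- If the Mumford-Tate conjecture holds at one prime of `Q` then the common Tate classes are Hodge
classes. -/
theorem hodge_of_commonTate (hper : MTD.IsRationalStructure per) (Q : Set ℕ) (p : ℕ)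
    [Fact p.Prime] (hp : p ∈ Q) (hMT : MumfordTateAt ρ χ per p) (m : ℕ)
    (ψ : MultilinearMap ℚ (fun _ : Fin m × Fin 2 => W) ℚ) (hψ : IsCommonTate ρ χ Q m ψ) :
    IsHodgeTensor per ψ := by
  have h1 := hψ p hp (bcm (Ω := ℚ_[p]) (Module.finBasis ℚ W) ψ)
    (fun v => by rw [bcm_one, algMap_eq])
  exact hodge_of_ext per hper ψ _ (fun v => bcm_one (Module.finBasis ℚ W) ψ v) (hMT m _ h1)

variable [TopologicalSpace Γ] [IsTopologicalGroup Γ] [CompactSpace Γ]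

/-- The quartic classes with all their properties. -/
theorem quartic_common3 (ω₀ : W →ₗ[ℚ] W →ₗ[ℚ] ℚ)
    (hper : MTD.IsRationalStructure per) (hR : IsRiemannForm per ω₀)
    (hρ : IsTateSystem ρ χ ω₀) (hK : KnownTheorems ρ χ per) :
    ∃ Θ : ∀ (ℓ : ℕ) [Fact ℓ.Prime],
        MultilinearMap ℚ_[ℓ] (fun _ : Fin 2 × Fin 2 => ℚ_[ℓ] ⊗[ℚ] W) ℚ_[ℓ],
      (∀ (ℓ : ℕ) [Fact ℓ.Prime] s v, Θ ℓ (fun l => ρ ℓ s (v l)) = χ ℓ s ^ 2 * Θ ℓ v) ∧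
      (∀ (ℓ : ℕ) [Fact ℓ.Prime], MTD.IsHodgeCombination per (Θ ℓ) → MumfordTateAt ρ χ per ℓ) ∧
      ∀ Q : Set ℕ, (∀ (ℓ : ℕ) [Fact ℓ.Prime], ℓ ∈ Q → IsCommonCombination ρ χ Q ℓ 2 (Θ ℓ)) →
        ∃ 𝔤 : Submodule ℚ (Module.End ℚ W), IsCommonLie ρ χ Q 𝔤 := by
  choose hρ' hχ ω hωω hωρ using hρ
  have hq := fun (ℓ : ℕ) [Fact ℓ.Prime] => quartic per (ρ ℓ) (χ ℓ) ω₀ (ω ℓ) hper hR (hωω ℓ)
    (hωρ ℓ) (hρ' ℓ) (hχ ℓ) (hK ℓ).1 (hK ℓ).2.1 (hK ℓ).2.2.1 (hK ℓ).2.2.2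
  choose Θ h1 h2 h3 using hq
  refine ⟨Θ, h1, h3, fun Q hΘ => ?_⟩
  let 𝔤 : Submodule ℚ (Module.End ℚ W) :=
    { carrier := {Z | ∀ m ψ, IsCommonTate ρ χ Q m ψ → Kills Z ψ}
      zero_mem' := by
        intro m ψ _ v
        refine Finset.sum_eq_zero fun j _ => ?_
        rw [LinearMap.zero_apply]
        exact ψ.map_coord_zero j (Function.update_self _ _ _)
      add_mem' := by
        intro X Y hX hY m ψ hψ v
        have e : ∀ j, ψ (Function.update v j ((X + Y) (v j))) =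
            ψ (Function.update v j (X (v j))) + ψ (Function.update v j (Y (v j))) := by
          intro j
          rw [LinearMap.add_apply, MultilinearMap.map_update_add]
        rw [Finset.sum_congr rfl fun j _ => e j, Finset.sum_add_distrib, hX m ψ hψ v,
          hY m ψ hψ v, add_zero]
      smul_mem' := by
        intro c X hX m ψ hψ v
        have e : ∀ j, ψ (Function.update v j ((c • X) (v j))) =
            c * ψ (Function.update v j (X (v j))) := by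
          intro j
          rw [LinearMap.smul_apply, MultilinearMap.map_update_smul, smul_eq_mul]
        rw [Finset.sum_congr rfl fun j _ => e j, ← Finset.mul_sum, hX m ψ hψ v, mul_zero] }
  refine ⟨𝔤, fun ℓ _ hℓ X => ⟨fun hX => ?_, fun hX => ?_⟩⟩
  · intro m φ hφ
    have hX' : X ∈ extEnd ℚ_[ℓ] (fun Z => Z ∈ 𝔤) := hX
    refine kills_extEnd (fun Z => Z ∈ 𝔤) φ (fun Z hZ => ?_) hX'
    have h4 : Z.baseChange ℚ_[ℓ] ∈ lieT (ρ ℓ) (χ ℓ) := by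
      refine mem_of_kills per (ρ ℓ) (χ ℓ) ω₀ (ω ℓ) hper hR
        (fun u v => by rw [hωω ℓ, algMap_eq]) (hK ℓ).2.2.1 (hK ℓ).2.2.2 (Θ ℓ) (h2 ℓ)
        (fun m ψ => IsCommonTate ρ χ Q m ψ) ?_ ?_ Z hZ
      · intro m ψ hψ ℓ' _ _ φ' hφ'
        exact (hK ℓ').2.2.1 m ψ hψ φ' hφ'
      · have h5 := hΘ ℓ hℓ
        unfold IsCommonCombination at h5
        simpa only [algMap_eq] using h5
    exact h4 m φ hφ
  · have h5 : X ∈ extEnd ℚ_[ℓ] (fun Z => Z ∈ 𝔤) := by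
      refine end_mem_span _ X fun lam => ?_
      intro m ψ hψ
      have h6 : Kills X (bcm (Ω := ℚ_[ℓ]) (Module.finBasis ℚ W) ψ) :=
        hX m _ (hψ ℓ hℓ _ fun v => by rw [bcm_one, algMap_eq])
      exact (kills_bcm_iff (Module.finBasis ℚ W) ψ X).1 h6 lam
    exact h5

/-- **The two parts of the Mumford-Tate conjecture.** -/
theorem two_parts (ω₀ : W →ₗ[ℚ] W →ₗ[ℚ] ℚ)
    (hper : MTD.IsRationalStructure per) (hR : IsRiemannForm per ω₀)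
    (hρ : IsTateSystem ρ χ ω₀) (hK : KnownTheorems ρ χ per) :
    ∃ Θ : ∀ (ℓ : ℕ) [Fact ℓ.Prime],
        MultilinearMap ℚ_[ℓ] (fun _ : Fin 2 × Fin 2 => ℚ_[ℓ] ⊗[ℚ] W) ℚ_[ℓ],
      (∀ (ℓ : ℕ) [Fact ℓ.Prime] s v, Θ ℓ (fun l => ρ ℓ s (v l)) = χ ℓ s ^ 2 * Θ ℓ v) ∧
      ∀ (Q : Set ℕ) (p : ℕ) [Fact p.Prime], p ∈ Q → List.TFAE [
        ∀ (ℓ : ℕ) [Fact ℓ.Prime], ℓ ∈ Q → MumfordTateAt ρ χ per ℓ,
        MumfordTateAt ρ χ per p ∧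
          ∀ (ℓ : ℕ) [Fact ℓ.Prime], ℓ ∈ Q → IsCommonCombination ρ χ {p, ℓ} ℓ 2 (Θ ℓ),
        (∀ (ℓ ℓ' : ℕ) [Fact ℓ.Prime] [Fact ℓ'.Prime], ℓ ∈ Q → ℓ' ∈ Q →
          IsCommonCombination ρ χ {ℓ, ℓ'} ℓ 2 (Θ ℓ)) ∧
          ∀ ψ : MultilinearMap ℚ (fun _ : Fin 2 × Fin 2 => W) ℚ,
            IsCommonTate ρ χ Q 2 ψ → IsHodgeTensor per ψ] := by
  obtain ⟨Θ, h1, h3, h2⟩ := quartic_common3 ρ χ per ω₀ hper hR hρ hK
  refine ⟨Θ, h1, fun Q p _ hp => ?_⟩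
  have hD : ∀ (ℓ : ℕ) [Fact ℓ.Prime], Deligne per (ρ ℓ) (χ ℓ) := fun ℓ => (hK ℓ).2.2.1
  have hT : ∀ (ℓ : ℕ) [Fact ℓ.Prime], IsTateTensor (ρ ℓ) (χ ℓ) 2 (Θ ℓ) := fun ℓ _ =>
    ⟨⊤, inferInstance, fun s _ v => h1 ℓ s v⟩
  have hcl : ∀ Q : Set ℕ, (∃ 𝔤 : Submodule ℚ (Module.End ℚ W), IsCommonLie ρ χ Q 𝔤) →
      TateClassesAreCommon ρ χ Q := by
    rintro Q ⟨𝔤, h𝔤⟩ ℓ _ hℓ m φ hφ
    exact common_of_lie ρ χ Q (fun ℓ => (hρ ℓ).1) (fun ℓ => (hρ ℓ).2.1) 𝔤 h𝔤 ℓ hℓ m φ hφ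
  tfae_have 1 → 2 := fun h => ⟨h p hp, fun ℓ _ hℓ =>
    common_of_hodge ρ χ per hD {p, ℓ} ℓ 2 _ (h ℓ hℓ 2 _ (hT ℓ))⟩
  tfae_have 2 → 1 := by
    rintro ⟨hMT, h⟩ ℓ _ hℓ
    have hL := h2 {p, ℓ} (fun q _ hq => by
      rcases hq with rfl | rfl
      · exact common_of_hodge ρ χ per hD {q, ℓ} q 2 _ (hMT 2 _ (hT q))
      · exact h q hℓ)
    intro m φ hφ
    exact hodge_of_common ρ χ per {p, ℓ} ℓ m
      (fun ψ hψ => hodge_of_commonTate ρ χ per hper {p, ℓ} p (by simp) hMT m ψ hψ) φ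
      (hcl {p, ℓ} hL ℓ (by simp) m φ hφ)
  tfae_have 1 → 3 := fun h => ⟨fun ℓ ℓ' _ _ hℓ _ =>
    common_of_hodge ρ χ per hD {ℓ, ℓ'} ℓ 2 _ (h ℓ hℓ 2 _ (hT ℓ)),
    fun ψ hψ => hodge_of_commonTate ρ χ per hper Q p hp (h p hp) 2 ψ hψ⟩
  tfae_have 3 → 1 := by
    rintro ⟨h, hH⟩ ℓ _ hℓ
    have hL : ∃ 𝔤 : Submodule ℚ (Module.End ℚ W), IsCommonLie ρ χ Q 𝔤 := by
      refine common_of_pairs ρ χ Q fun ℓ ℓ' _ _ hℓ hℓ' => h2 {ℓ, ℓ'} fun q _ hq => ?_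
      rcases hq with rfl | rfl
      · exact h _ _ hℓ hℓ'
      · rw [Set.pair_comm]
        exact h _ _ hℓ' hℓ
    exact h3 ℓ (hodge_of_common ρ χ per Q ℓ 2 hH _ (hcl Q hL ℓ hℓ 2 _ (hT ℓ)))
  tfae_finish

end family

end Pool.Agent.U103.CF
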